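import Mathlib
import Pool.Agent.W186.AI.Spec

set_option autoImplicit false

namespace Pool.Agent.W862.AI.OPN

open Pool.Agent.W186.AI
open Complex Filter Topology Metric Set
open scoped Real

/-- phases supported on the primes `p j`. -/
noncomputable def om {N : ℕ} (p : Fin N → Nat.Primes) (v : Fin N → ℂ) (q : Nat.Primes) : ℂ :=
  ∑ j, if p j = q then v j else 0

theorem om_apply {N : ℕ} (p : Fin N → Nat.Primes) (hp : Function.Injective p) (v : Fin N → ℂ)
    (j : Fin N) : om p v (p j) = v j := by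
  unfold om
  rw [Finset.sum_eq_single j]
  · simp
  · intro i _ hij
    rw [if_neg]
    intro h
    exact hij (hp h)
  · intro h
    exact absurd (Finset.mem_univ j) h

theorem om_not {N : ℕ} (p : Fin N → Nat.Primes) (v : Fin N → ℂ)
    (q : Nat.Primes) (hq : q ∉ Set.range p) : om p v q = 0 := by
  unfold om
  apply Finset.sum_eq_zero
  intro j _
  rw [if_neg]
  intro h
  exact hq ⟨j, h⟩

theorem om_norm {N : ℕ} (p : Fin N → Nat.Primes) (hp : Function.Injective p) (v : Fin N → ℂ)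
    (hv : ∀ j, ‖v j‖ ≤ 1) (q : Nat.Primes) : ‖om p v q‖ ≤ 1 := by
  by_cases hq : q ∈ Set.range p
  · obtain ⟨j, rfl⟩ := hq
    rw [om_apply p hp]
    exact hv j
  · rw [om_not p v q hq]
    simp

/-- the finite sum -/
noncomputable def Sf {N : ℕ} (σ : ℝ) (p : Fin N → Nat.Primes) (v : Fin N → ℂ) (t : ℂ) : ℂ :=
  (∑ j, (log (1 - v j * (((p j : Nat.Primes) : ℕ) : ℂ) ^ (-((σ : ℂ) + I * t))) -
    log (1 - v j * (((p j : Nat.Primes) : ℕ) : ℂ) ^ (-((σ : ℂ) - I * t))))) * (2 * I)⁻¹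

theorem S_om {N : ℕ} (σ : ℝ) (p : Fin N → Nat.Primes) (hp : Function.Injective p) (v : Fin N → ℂ)
    (t : ℂ) : S σ (om p v) t = Sf σ p v t := by
  unfold S Sf
  rw [div_eq_mul_inv]
  congr 1
  rw [← hp.tsum_eq, tsum_fintype]
  · apply Finset.sum_congr rfl
    intro j _
    rw [om_apply p hp]
  · intro q hq
    by_contra h
    apply hq
    have h0 := om_not p v q h
    change log (1 - om p v q * (((q : Nat.Primes) : ℕ) : ℂ) ^ (-((σ : ℂ) + I * t))) -
      log (1 - om p v q * (((q : Nat.Primes) : ℕ) : ℂ) ^ (-((σ : ℂ) - I * t))) = 0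
    rw [h0]
    simp

/-- strict derivative of one term -/
theorem term {m N : ℕ} (i : Fin m) (j : Fin N) (E : ℂ → ℂ) (e' : ℂ) (z0 : Fin m → ℂ)
    (hE : HasStrictDerivAt E e' (z0 i)) :
    HasStrictFDerivAt (fun q : (Fin m → ℂ) × (Fin N → ℂ) => log (1 - q.2 j * E (q.1 i)))
      (-(E (z0 i)) • ((ContinuousLinearMap.proj (R := ℂ) (φ := fun _ : Fin N => ℂ) j).comp
        (ContinuousLinearMap.snd ℂ (Fin m → ℂ) (Fin N → ℂ)))) (z0, 0) := by
  have h1 : HasStrictFDerivAt (fun q : (Fin m → ℂ) × (Fin N → ℂ) => q.2 j)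
      ((ContinuousLinearMap.proj (R := ℂ) (φ := fun _ : Fin N => ℂ) j).comp
        (ContinuousLinearMap.snd ℂ (Fin m → ℂ) (Fin N → ℂ))) (z0, 0) :=
    ((ContinuousLinearMap.proj (R := ℂ) (φ := fun _ : Fin N => ℂ) j).comp
        (ContinuousLinearMap.snd ℂ (Fin m → ℂ) (Fin N → ℂ))).hasStrictFDerivAt
  have h2' : HasStrictFDerivAt (fun q : (Fin m → ℂ) × (Fin N → ℂ) => q.1 i)
      ((ContinuousLinearMap.proj (R := ℂ) (φ := fun _ : Fin m => ℂ) i).comp
        (ContinuousLinearMap.fst ℂ (Fin m → ℂ) (Fin N → ℂ))) (z0, 0) :=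
    ((ContinuousLinearMap.proj (R := ℂ) (φ := fun _ : Fin m => ℂ) i).comp
        (ContinuousLinearMap.fst ℂ (Fin m → ℂ) (Fin N → ℂ))).hasStrictFDerivAt
  have h2 : HasStrictFDerivAt (fun q : (Fin m → ℂ) × (Fin N → ℂ) => E (q.1 i))
      (e' • ((ContinuousLinearMap.proj (R := ℂ) (φ := fun _ : Fin m => ℂ) i).comp
        (ContinuousLinearMap.fst ℂ (Fin m → ℂ) (Fin N → ℂ)))) (z0, 0) :=
    HasStrictDerivAt.comp_hasStrictFDerivAt (z0, 0) (h₂ := E) (by simpa using hE) h2'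
  have h3 := (h1.mul h2).const_sub 1
  have h4 := h3.clog (by simp [slitPlane])
  refine h4.congr_fderiv ?_
  ext q <;> simp

/-- The coefficient. -/
noncomputable def cc (σ : ℝ) (p : Nat.Primes) (t : ℂ) : ℂ :=
  (-(((p : ℕ) : ℂ) ^ (-((σ : ℂ) + I * t))) - -(((p : ℕ) : ℂ) ^ (-((σ : ℂ) - I * t)))) * (2 * I)⁻¹

theorem hasStrict {m N : ℕ} (σ : ℝ) (p : Fin N → Nat.Primes) (i : Fin m) (z0 : Fin m → ℂ) :
    HasStrictFDerivAt (fun q : (Fin m → ℂ) × (Fin N → ℂ) => Sf σ p q.2 (q.1 i))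
      (∑ j, cc σ (p j) (z0 i) • ((ContinuousLinearMap.proj (R := ℂ) (φ := fun _ : Fin N => ℂ) j).comp
        (ContinuousLinearMap.snd ℂ (Fin m → ℂ) (Fin N → ℂ)))) (z0, 0) := by
  have hne : ∀ j, (((p j : Nat.Primes) : ℕ) : ℂ) ≠ 0 := fun j => by
    exact_mod_cast (p j).2.ne_zero
  have hE1 : ∀ j, HasStrictDerivAt (fun t : ℂ => (((p j : Nat.Primes) : ℕ) : ℂ) ^ (-((σ : ℂ) + I * t)))
      ((((p j : Nat.Primes) : ℕ) : ℂ) ^ (-((σ : ℂ) + I * (z0 i))) *
        Complex.log (((p j : Nat.Primes) : ℕ) : ℂ) * (-(I * 1))) (z0 i) := fun j => by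
    apply HasStrictDerivAt.const_cpow _ (Or.inl (hne j))
    exact (((hasStrictDerivAt_id (z0 i)).const_mul I).const_add (σ : ℂ)).neg
  have hE2 : ∀ j, HasStrictDerivAt (fun t : ℂ => (((p j : Nat.Primes) : ℕ) : ℂ) ^ (-((σ : ℂ) - I * t)))
      ((((p j : Nat.Primes) : ℕ) : ℂ) ^ (-((σ : ℂ) - I * (z0 i))) *
        Complex.log (((p j : Nat.Primes) : ℕ) : ℂ) * (-(-(I * 1)))) (z0 i) := fun j => by
    apply HasStrictDerivAt.const_cpow _ (Or.inl (hne j))
    exact (((hasStrictDerivAt_id (z0 i)).const_mul I).const_sub (σ : ℂ)).neg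
  have h := (HasStrictFDerivAt.fun_sum (u := Finset.univ) (fun j _ =>
    (term i j _ _ z0 (hE1 j)).sub (term i j _ _ z0 (hE2 j)))).mul_const' ((2 * I)⁻¹)
  refine h.congr_fderiv ?_
  apply ContinuousLinearMap.ext
  intro q
  simp only [ContinuousLinearMap.smul_apply, ContinuousLinearMap.sum_apply,
    ContinuousLinearMap.sub_apply, ContinuousLinearMap.comp_apply, ContinuousLinearMap.proj_apply,
    ContinuousLinearMap.coe_snd', smul_eq_mul, MulOpposite.smul_eq_mul_unop, MulOpposite.unop_op,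
    Finset.sum_mul, cc]
  apply Finset.sum_congr rfl
  intro j _
  ring

/-- the derivative of the map -/
noncomputable def LL {m N : ℕ} (w : ℂ) (c : Fin m → Fin N → ℂ) :
    ((Fin m → ℂ) × (Fin N → ℂ)) →L[ℂ] (Fin m → ℂ) × (Fin m → ℂ) :=
  (ContinuousLinearMap.fst ℂ (Fin m → ℂ) (Fin N → ℂ)).prod (ContinuousLinearMap.pi fun i =>
    w • (∑ j, c i j • ((ContinuousLinearMap.proj (R := ℂ) (φ := fun _ : Fin N => ℂ) j).comp
        (ContinuousLinearMap.snd ℂ (Fin m → ℂ) (Fin N → ℂ)))) -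
      ((ContinuousLinearMap.proj (R := ℂ) (φ := fun _ : Fin m => ℂ) i).comp
        (ContinuousLinearMap.fst ℂ (Fin m → ℂ) (Fin N → ℂ))))

noncomputable def Psi {m N : ℕ} (σ : ℝ) (p : Fin N → Nat.Primes) (w : ℂ) (y : Fin m → ℂ)
    (q : (Fin m → ℂ) × (Fin N → ℂ)) : (Fin m → ℂ) × (Fin m → ℂ) :=
  (q.1, fun i => w * (y i + Sf σ p q.2 (q.1 i)) - q.1 i)

theorem Psi_strict {m N : ℕ} (σ : ℝ) (p : Fin N → Nat.Primes) (w : ℂ) (y : Fin m → ℂ)
    (z0 : Fin m → ℂ) :
    HasStrictFDerivAt (Psi σ p w y) (LL w (fun i j => cc σ (p j) (z0 i))) (z0, 0) := by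
  unfold Psi LL
  apply HasStrictFDerivAt.prodMk
  · exact (ContinuousLinearMap.fst ℂ (Fin m → ℂ) (Fin N → ℂ)).hasStrictFDerivAt
  · rw [hasStrictFDerivAt_pi]
    intro i
    have h1 := ((hasStrict σ p i z0).const_add (y i)).const_mul w
    have h2 : HasStrictFDerivAt (fun q : (Fin m → ℂ) × (Fin N → ℂ) => q.1 i)
      ((ContinuousLinearMap.proj (R := ℂ) (φ := fun _ : Fin m => ℂ) i).comp
        (ContinuousLinearMap.fst ℂ (Fin m → ℂ) (Fin N → ℂ))) (z0, 0) :=
      ((ContinuousLinearMap.proj (R := ℂ) (φ := fun _ : Fin m => ℂ) i).comp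
        (ContinuousLinearMap.fst ℂ (Fin m → ℂ) (Fin N → ℂ))).hasStrictFDerivAt
    exact h1.sub h2

theorem surj {m N : ℕ} (c : Fin m → Fin N → ℂ)
    (hc : ∀ a : Fin m → ℂ, (∀ j, ∑ i, a i * c i j = 0) → a = 0) (b : Fin m → ℂ) :
    ∃ v : Fin N → ℂ, ∀ i, ∑ j, c i j * v j = b i := by
  classical
  let T : (Fin N → ℂ) →ₗ[ℂ] (Fin m → ℂ) :=
    LinearMap.pi fun i => ∑ j, c i j • (LinearMap.proj (R := ℂ) (φ := fun _ : Fin N => ℂ) j)
  have hT : ∀ v i, T v i = ∑ j, c i j * v j := by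
    intro v i
    simp [T]
  have hr : LinearMap.range T = ⊤ := by
    by_contra hne
    obtain ⟨φ, hφ, hle⟩ := Submodule.exists_le_ker_of_lt_top _ (lt_top_iff_ne_top.2 hne)
    apply hφ
    have hφ2 : ∀ x : Fin m → ℂ, φ x = ∑ i, x i * φ (Pi.single i 1) := by
      intro x
      conv_lhs => rw [← Finset.univ_sum_single x]
      rw [map_sum]
      apply Finset.sum_congr rfl
      intro i _
      have : (Pi.single i (x i) : Fin m → ℂ) = x i • (Pi.single i 1 : Fin m → ℂ) := by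
        rw [← Pi.single_smul]
        simp
      rw [this, map_smul, smul_eq_mul]
    have h0 : (fun i => φ (Pi.single i 1)) = 0 := by
      apply hc
      intro j
      have h1 : φ (T (Pi.single j 1)) = 0 := hle ⟨_, rfl⟩
      rw [hφ2] at h1
      rw [← h1]
      apply Finset.sum_congr rfl
      intro i _
      rw [hT, Finset.sum_eq_single j]
      · simp [mul_comm]
      · intro k _ hk
        simp [Pi.single_apply, hk]
      · intro h
        exact absurd (Finset.mem_univ j) h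
    apply LinearMap.ext
    intro x
    rw [hφ2]
    simp only [LinearMap.zero_apply]
    apply Finset.sum_eq_zero
    intro i _
    have := congrFun h0 i
    simp only [Pi.zero_apply] at this
    rw [this, mul_zero]
  have hb : b ∈ LinearMap.range T := by rw [hr]; trivial
  obtain ⟨v, hv⟩ := hb
  exact ⟨v, fun i => by rw [← hT, hv]⟩

theorem LL_range {m N : ℕ} (w : ℂ) (hw : w ≠ 0) (c : Fin m → Fin N → ℂ)
    (hc : ∀ a : Fin m → ℂ, (∀ j, ∑ i, a i * c i j = 0) → a = 0) :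
    LinearMap.range (LL w c).toLinearMap = ⊤ := by
  rw [LinearMap.range_eq_top]
  rintro ⟨a, b⟩
  obtain ⟨v, hv⟩ := surj c hc (fun i => w⁻¹ * (b i + a i))
  refine ⟨(a, v), ?_⟩
  unfold LL
  apply Prod.ext
  · simp
  · funext i
    simp [hv]
    field_simp
    ring

theorem cc_eq (σ : ℝ) (p : Nat.Primes) (t : ℝ) :
    cc σ p (t : ℂ) = (((p : ℕ) : ℂ) ^ (-(σ : ℂ))) * ((Real.sin (t * Real.log p) : ℝ) : ℂ) := by
  have hne : ((p : ℕ) : ℂ) ≠ 0 := by exact_mod_cast p.2.ne_zero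
  unfold cc
  have e1 : (-((σ : ℂ) + I * (t : ℂ))) = -(σ : ℂ) + (-(I * t)) := by ring
  have e2 : (-((σ : ℂ) - I * (t : ℂ))) = -(σ : ℂ) + (I * t) := by ring
  rw [e1, e2, cpow_add _ _ hne, cpow_add _ _ hne, Complex.ofReal_sin, Complex.sin]
  have hl : Complex.log ((p : ℕ) : ℂ) = ((Real.log (p : ℕ) : ℝ) : ℂ) := (Complex.natCast_log).symm
  have h3 : ((p : ℕ) : ℂ) ^ (-(I * (t : ℂ))) = cexp (-(((t * Real.log p : ℝ) : ℂ)) * I) := by
    rw [cpow_def_of_ne_zero hne, hl]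
    congr 1
    push_cast
    ring
  have h4 : ((p : ℕ) : ℂ) ^ ((I * (t : ℂ))) = cexp ((((t * Real.log p : ℝ) : ℂ)) * I) := by
    rw [cpow_def_of_ne_zero hne, hl]
    congr 1
    push_cast
    ring
  rw [h3, h4]
  have hI : (2 * I)⁻¹ = -I / 2 := by
    rw [mul_inv, Complex.inv_I]
    ring
  rw [hI]
  ring

/-- a polynomial vanishing near a point is zero -/
theorem poly_zero {m : ℕ} (P : MvPolynomial (Fin m) ℂ) (z0 : Fin m → ℂ)
    (h : ∀ᶠ z in 𝓝 z0, MvPolynomial.eval z P = 0) : P = 0 := by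
  obtain ⟨ε, hε, hb⟩ := Metric.eventually_nhds_iff_ball.1 h
  apply MvPolynomial.funext_set (fun i => ball (z0 i) ε)
  · intro i
    exact infinite_of_mem_nhds (z0 i) (ball_mem_nhds _ hε)
  · intro x hx
    rw [map_zero]
    apply hb
    rw [mem_ball, dist_pi_lt_iff hε]
    intro i
    exact hx i trivial

theorem main (ht : S_TTH) (hT : S_TRG) : S_OPN := by
  intro m n σ r P hn hσ hr hy hP
  obtain ⟨w, hw0, hwr, N, p, hp, hsp⟩ := hT m n hn r hr
  have hyy : ∀ i, 0 ≤ yy (n i) := fun i => by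
    unfold yy
    positivity
  set y : Fin m → ℂ := fun i => ((yy (n i) : ℝ) : ℂ) with hydef
  set z0 : Fin m → ℂ := fun i => ((w * yy (n i) : ℝ) : ℂ) with hz0
  have hwc : (w : ℂ) ≠ 0 := by exact_mod_cast hw0.ne'
  have hst := Psi_strict σ p (w : ℂ) y z0
  have hc : ∀ a : Fin m → ℂ, (∀ j, ∑ i, a i * cc σ (p j) (z0 i) = 0) → a = 0 := by
    intro a ha
    apply hsp
    intro j
    have h1 := ha j
    have hne : (((p j : Nat.Primes) : ℕ) : ℂ) ≠ 0 := by exact_mod_cast (p j).2.ne_zero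
    have hne2 : ((((p j : Nat.Primes) : ℕ) : ℂ) ^ (-(σ : ℂ))) ≠ 0 := by
      rw [cpow_def_of_ne_zero hne]
      exact Complex.exp_ne_zero _
    apply mul_left_cancel₀ hne2
    rw [mul_zero, ← h1, Finset.mul_sum]
    apply Finset.sum_congr rfl
    intro i _
    rw [hz0]
    simp only
    rw [cc_eq]
    ring
  have hmap := hst.map_nhds_eq_of_surj (LL_range (w : ℂ) hwc _ hc)
  have hval : Psi σ p (w : ℂ) y (z0, 0) = (z0, 0) := by
    unfold Psi Sf
    apply Prod.ext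
    · rfl
    · funext i
      simp [hz0, hydef]
  rw [hval] at hmap
  -- the neighbourhood
  have hU : {q : (Fin m → ℂ) × (Fin N → ℂ) | (∀ i, ‖q.1 i‖ < 1) ∧ (∀ j, ‖q.2 j‖ < 1)} ∈ 𝓝 (z0, (0 : Fin N → ℂ)) := by
    have hz1 : ∀ i, ‖z0 i‖ < 1 := by
      intro i
      simp only [hz0, Complex.norm_real, Real.norm_eq_abs]
      rw [abs_of_nonneg (mul_nonneg hw0.le (hyy i))]
      have h1 := hy i
      have h2 := hyy i
      nlinarith
    have hA : ∀ᶠ q in 𝓝 (z0, (0 : Fin N → ℂ)), (∀ i, ‖q.1 i‖ < 1) := by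
      rw [eventually_all]
      intro i
      exact (Continuous.norm ((continuous_apply i).comp continuous_fst)).continuousAt.eventually_lt
        continuousAt_const (hz1 i)
    have hB : ∀ᶠ q in 𝓝 (z0, (0 : Fin N → ℂ)), (∀ j, ‖q.2 j‖ < 1) := by
      rw [eventually_all]
      intro j
      exact (Continuous.norm ((continuous_apply j).comp continuous_snd)).continuousAt.eventually_lt
        continuousAt_const (by simp)
    exact hA.and hB
  have him : Psi σ p (w : ℂ) y '' {q : (Fin m → ℂ) × (Fin N → ℂ) | (∀ i, ‖q.1 i‖ < 1) ∧ (∀ j, ‖q.2 j‖ < 1)} ∈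
      𝓝 (z0, (0 : Fin m → ℂ)) := by
    rw [← hmap]
    exact Filter.image_mem_map hU
  have hcont : Tendsto (fun z : Fin m → ℂ => (z, (0 : Fin m → ℂ))) (𝓝 z0) (𝓝 (z0, 0)) := by
    exact (Continuous.prodMk continuous_id continuous_const).tendsto z0
  have hev := hcont.eventually him
  apply poly_zero P z0
  filter_upwards [hev] with z hz
  obtain ⟨⟨z', v⟩, ⟨hz1, hv1⟩, heq⟩ := hz
  have e1 : z' = z := congrArg Prod.fst heq
  have e2 : ∀ i, (w : ℂ) * (y i + Sf σ p v (z' i)) - z' i = 0 := fun i => congrFun (congrArg Prod.snd heq) i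
  subst e1
  have hom : ∀ q, ‖om p v q‖ ≤ 1 := om_norm p hp v (fun j => (hv1 j).le)
  have hwb : (w : ℂ) ∈ ball (0 : ℂ) r := by
    rw [mem_ball_zero_iff, Complex.norm_real, Real.norm_eq_abs, abs_of_pos hw0]
    exact hwr
  have hTT : ∀ i, z' i = TT σ (yy (n i)) w (om p v) := by
    intro i
    apply ((ht σ (yy (n i)) r hσ (hyy i) hr (hy i)).1 (om p v) hom w hwb).2.2 (z' i) (hz1 i)
    rw [S_om σ p hp]
    have := e2 i
    rw [sub_eq_zero] at this
    exact this.symm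
  have := hP (om p v) hom w hwb
  rw [← this]
  congr 1
  congr 1
  funext i
  exact hTT i

end Pool.Agent.W862.AI.OPN
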